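import Pool.Agent.Run7.h522.QA.Sieve

/-!
# The large primes, in mean square over the Dirichlet characters
-/

set_option autoImplicit false

namespace Run7.h522.QA

open Finset

/-- Minkowski's inequality. -/
lemma mink {C : Type} [Fintype C] (F : Finset ℕ) (u : ℕ → C → ℂ) (w : ℕ → ℝ)
    (hw : ∀ j ∈ F, 0 ≤ w j) (h : ∀ j ∈ F, ∑ c, ‖u j c‖ ^ 2 ≤ w j ^ 2) :
    ∑ c, ‖∑ j ∈ F, u j c‖ ^ 2 ≤ (∑ j ∈ F, w j) ^ 2 := by
  have h1 : ∀ v : C → ℂ, ∑ c, ‖v c‖ ^ 2 = ‖(WithLp.toLp 2 v : EuclideanSpace ℂ C)‖ ^ 2 := by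
    intro v
    rw [EuclideanSpace.norm_sq_eq]
  have h2 : (WithLp.toLp 2 (fun c => ∑ j ∈ F, u j c) : EuclideanSpace ℂ C) =
      ∑ j ∈ F, (WithLp.toLp 2 (u j) : EuclideanSpace ℂ C) := by
    ext c
    simp
  rw [h1, h2]
  refine pow_le_pow_left₀ (norm_nonneg _) ?_ 2
  refine (norm_sum_le _ _).trans (sum_le_sum fun j hj => ?_)
  have h3 := h j hj
  rw [h1] at h3
  exact (pow_le_pow_iff_left₀ (norm_nonneg _) (hw j hj) two_ne_zero).1 h3

lemma sum_inv_sqrt (n : ℕ) : ∑ k ∈ range n, 1 / Real.sqrt ((k : ℝ) + 1) ≤ 2 * Real.sqrt n := by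
  induction n with
  | zero => simp
  | succ n ih =>
    rw [sum_range_succ]
    have h0 : (0 : ℝ) ≤ n := Nat.cast_nonneg n
    have h1 : 1 / Real.sqrt ((n : ℝ) + 1) ≤ 2 * (Real.sqrt ((n : ℝ) + 1) - Real.sqrt n) := by
      have h2 : 0 < Real.sqrt ((n : ℝ) + 1) := Real.sqrt_pos.2 (by linarith)
      have h3 : 0 ≤ Real.sqrt (n : ℝ) := Real.sqrt_nonneg _
      have h4 : Real.sqrt ((n : ℝ) + 1) ^ 2 = n + 1 := Real.sq_sqrt (by linarith)
      have h5 : Real.sqrt (n : ℝ) ^ 2 = n := Real.sq_sqrt h0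
      rw [div_le_iff₀ h2]
      nlinarith [sq_nonneg (Real.sqrt ((n : ℝ) + 1) - Real.sqrt n)]
    push_cast
    linarith

lemma tele_step {c x : ℝ} (hc : 0 < c) (hx : 0 < x) :
    1 / ((x + 1) * (1 + c * (x + 1))) ≤ Real.log (1 + 1 / (c * x)) -
      Real.log (1 + 1 / (c * (x + 1))) := by
  have h1 : 0 < 1 + 1 / (c * x) := by positivity
  have h2 : 0 < 1 + 1 / (c * (x + 1)) := by positivity
  rw [← Real.log_div h1.ne' h2.ne']
  have h3 := Real.one_sub_inv_le_log_of_pos (div_pos h1 h2)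
  refine le_trans ?_ h3
  have h4 : 1 - ((1 + 1 / (c * x)) / (1 + 1 / (c * (x + 1))))⁻¹ = 1 / ((x + 1) * (1 + c * x)) := by
    field_simp
    ring
  rw [h4]
  refine one_div_le_one_div_of_le (by positivity) ?_
  refine mul_le_mul_of_nonneg_left ?_ (by linarith)
  nlinarith

lemma exp_neg_le {x : ℝ} (hx : 0 ≤ x) : Real.exp (-x) ≤ 1 / (1 + x) := by
  rw [Real.exp_neg, one_div]
  refine inv_anti₀ (by linarith) ?_
  linarith [Real.add_one_le_exp x]

/-- The sum of the weights of the large blocks. -/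
lemma weights_far {y : ℝ} (hy : 0 < y) {K : ℕ} (hK : 2 ≤ K) (M : ℕ) :
    ∑ j ∈ Ico K M, (2 : ℝ) ^ (-(j : ℝ) * y) / j ≤
      Real.log (1 + 1 / (y * Real.log 2 * (K - 1 : ℕ))) := by
  have hl2 := log2_ge
  set c : ℝ := y * Real.log 2 with hc
  have hc0 : 0 < c := by positivity
  have hterm : ∀ j ∈ Ico K M, (2 : ℝ) ^ (-(j : ℝ) * y) / j ≤
      Real.log (1 + 1 / (c * (j - 1 : ℕ))) - Real.log (1 + 1 / (c * ((j + 1 - 1 : ℕ) : ℝ))) := by
    intro j hj
    have hj2 : 2 ≤ j := hK.trans (mem_Ico.1 hj).1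
    have hj1 : ((j - 1 : ℕ) : ℝ) + 1 = j := by
      rw [Nat.cast_sub (by omega)]
      ring
    have hj3 : (0 : ℝ) < ((j - 1 : ℕ) : ℝ) := by
      have : 0 < j - 1 := by omega
      exact_mod_cast this
    have h1 := tele_step hc0 hj3
    rw [hj1] at h1
    rw [Nat.add_sub_cancel]
    refine le_trans ?_ h1
    have hj0 : (0 : ℝ) < j := by linarith
    have h2 : (2 : ℝ) ^ (-(j : ℝ) * y) ≤ 1 / (1 + c * j) := by
      rw [Real.rpow_def_of_pos (by norm_num)]
      have h3 : Real.log 2 * (-(j : ℝ) * y) = -(c * j) := by rw [hc]; ring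
      rw [h3]
      exact exp_neg_le (by positivity)
    calc (2 : ℝ) ^ (-(j : ℝ) * y) / j ≤ 1 / (1 + c * j) / j :=
          div_le_div_of_nonneg_right h2 hj0.le
      _ = _ := by rw [div_div, mul_comm]
  refine (sum_le_sum hterm).trans ?_
  rcases le_or_gt K M with hKM | hKM
  · have h1 := sum_Ico_sub (fun j : ℕ => -Real.log (1 + 1 / (c * ((j - 1 : ℕ) : ℝ)))) hKM
    have h2 : ∑ j ∈ Ico K M, (Real.log (1 + 1 / (c * (j - 1 : ℕ))) -
        Real.log (1 + 1 / (c * ((j + 1 - 1 : ℕ) : ℝ)))) =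
        Real.log (1 + 1 / (c * (K - 1 : ℕ))) - Real.log (1 + 1 / (c * (M - 1 : ℕ))) := by
      have h3 : ∑ j ∈ Ico K M, (Real.log (1 + 1 / (c * (j - 1 : ℕ))) -
        Real.log (1 + 1 / (c * ((j + 1 - 1 : ℕ) : ℝ)))) =
          ∑ j ∈ Ico K M, (-Real.log (1 + 1 / (c * ((j + 1 - 1 : ℕ) : ℝ))) -
            -Real.log (1 + 1 / (c * (j - 1 : ℕ)))) :=
        sum_congr rfl fun j _ => by ring
      rw [h3, h1]
      ring
    rw [h2]
    have h3 : 0 ≤ Real.log (1 + 1 / (c * (M - 1 : ℕ))) := by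
      refine Real.log_nonneg ?_
      have : (0 : ℝ) ≤ 1 / (c * (M - 1 : ℕ)) := by positivity
      linarith
    linarith
  · rw [Ico_eq_empty (by omega), sum_empty]
    refine Real.log_nonneg ?_
    have : (0 : ℝ) ≤ 1 / (c * (K - 1 : ℕ)) := by positivity
    linarith

/-- The sum of the weights of all blocks. -/
lemma weights {y : ℝ} (hy : 0 < y) {J : ℕ} (hJ : 1 ≤ J) (M : ℕ) :
    ∑ j ∈ Ico J M, (2 : ℝ) ^ (-(j : ℝ) * y) / Real.sqrt (j * ((j - J : ℕ) + 1)) ≤
      2 + 3 / 2 * Real.log (1 + 1 / (y * Real.log 2 * J)) := by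
  have hJ0 : (1 : ℝ) ≤ J := by exact_mod_cast hJ
  have hl2 := log2_ge
  set f : ℕ → ℝ := fun j => (2 : ℝ) ^ (-(j : ℝ) * y) / Real.sqrt (j * ((j - J : ℕ) + 1)) with hf
  have hf0 : ∀ j, 0 ≤ f j := fun j => by rw [hf]; positivity
  have hsub : Ico J M ⊆ Ico J (2 * J) ∪ Ico (2 * J) M := by
    intro j hj
    rw [mem_union, mem_Ico, mem_Ico]
    rw [mem_Ico] at hj
    omega
  have hle : ∑ j ∈ Ico J M, f j ≤ ∑ j ∈ Ico J (2 * J), f j + ∑ j ∈ Ico (2 * J) M, f j :=
    (sum_le_sum_of_subset_of_nonneg hsub fun j _ _ => hf0 j).trans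
      (by
        have := sum_union_inter (s₁ := Ico J (2 * J)) (s₂ := Ico (2 * J) M) (f := f)
        have h2 : 0 ≤ ∑ j ∈ Ico J (2 * J) ∩ Ico (2 * J) M, f j := sum_nonneg fun j _ => hf0 j
        linarith)
  have h1 : ∑ j ∈ Ico J (2 * J), f j ≤ 2 := by
    have h2 : ∀ j ∈ Ico J (2 * J), f j ≤
        1 / Real.sqrt J * (1 / Real.sqrt (((j - J : ℕ) : ℝ) + 1)) := by
      intro j hj
      rw [mem_Ico] at hj
      have hj0 : (J : ℝ) ≤ j := by exact_mod_cast hj.1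
      have h3 : (2 : ℝ) ^ (-(j : ℝ) * y) ≤ 1 := by
        refine Real.rpow_le_one_of_one_le_of_nonpos (by norm_num) ?_
        have : 0 ≤ (j : ℝ) * y := by positivity
        linarith
      rw [hf]
      simp only
      rw [one_div_mul_one_div, ← Real.sqrt_mul (by linarith)]
      refine div_le_div₀ zero_le_one h3 (Real.sqrt_pos.2 (by positivity)) ?_
      exact Real.sqrt_le_sqrt (mul_le_mul_of_nonneg_right hj0 (by positivity))
    refine (sum_le_sum h2).trans ?_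
    rw [← mul_sum, sum_Ico_eq_sum_range]
    have h3 : 2 * J - J = J := by omega
    rw [h3]
    have h4 : ∑ k ∈ range J, 1 / Real.sqrt (((J + k - J : ℕ) : ℝ) + 1) =
        ∑ k ∈ range J, 1 / Real.sqrt ((k : ℝ) + 1) :=
      sum_congr rfl fun k _ => by rw [Nat.add_sub_cancel_left]
    rw [h4]
    have h5 := sum_inv_sqrt J
    have h6 : 0 < Real.sqrt (J : ℝ) := Real.sqrt_pos.2 (by linarith)
    calc 1 / Real.sqrt J * ∑ k ∈ range J, 1 / Real.sqrt ((k : ℝ) + 1)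
        ≤ 1 / Real.sqrt J * (2 * Real.sqrt J) := by gcongr
      _ = 2 := by field_simp
  have h2 : ∑ j ∈ Ico (2 * J) M, f j ≤ 3 / 2 * Real.log (1 + 1 / (y * Real.log 2 * J)) := by
    have h3 : ∀ j ∈ Ico (2 * J) M, f j ≤ 3 / 2 * ((2 : ℝ) ^ (-(j : ℝ) * y) / j) := by
      intro j hj
      rw [mem_Ico] at hj
      have hj0 : 2 * (J : ℝ) ≤ j := by exact_mod_cast hj.1
      have hj1 : ((j - J : ℕ) : ℝ) = j - J := Nat.cast_sub (by omega)
      have hjp : (0 : ℝ) < j := by linarith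
      rw [hf]
      simp only
      have h4 : (j : ℝ) / (3 / 2) ≤ Real.sqrt (j * ((j - J : ℕ) + 1)) := by
        refine Real.le_sqrt_of_sq_le ?_
        rw [hj1]
        have : (j : ℝ) / 2 ≤ j - J + 1 := by linarith
        nlinarith
      calc (2 : ℝ) ^ (-(j : ℝ) * y) / Real.sqrt (j * ((j - J : ℕ) + 1))
          ≤ (2 : ℝ) ^ (-(j : ℝ) * y) / (j / (3 / 2)) :=
            div_le_div_of_nonneg_left (by positivity) (by positivity) h4
        _ = _ := by field_simp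
    refine (sum_le_sum h3).trans ?_
    rw [← mul_sum]
    refine mul_le_mul_of_nonneg_left ?_ (by norm_num)
    refine (weights_far hy (K := 2 * J) (by omega) M).trans ?_
    refine Real.log_le_log (by positivity) ?_
    have h4 : (J : ℝ) ≤ ((2 * J - 1 : ℕ) : ℝ) := by
      have : J ≤ 2 * J - 1 := by omega
      exact_mod_cast this
    gcongr
  linarith

/-- `J = ⌊log₂ q⌋` and `log q`. -/
lemma log_J {q : ℕ} (hq : 2 ≤ q) : Real.log q ≤ 2 * (Real.log 2 * Nat.log 2 q) := by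
  have hl2 := log2_ge
  have h1 : q < 2 ^ (Nat.log 2 q + 1) := Nat.lt_pow_succ_log_self (by norm_num) q
  have h2 : 1 ≤ Nat.log 2 q := Nat.log_pos (by norm_num) hq
  have h3 : (q : ℝ) ≤ 2 ^ (Nat.log 2 q + 1) := by exact_mod_cast h1.le
  have h4 : Real.log q ≤ (Nat.log 2 q + 1 : ℕ) * Real.log 2 := by
    rw [← Real.log_pow]
    refine Real.log_le_log ?_ h3
    have : 0 < q := by omega
    exact_mod_cast this
  push_cast at h4
  have h5 : (1 : ℝ) ≤ Nat.log 2 q := by exact_mod_cast h2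
  nlinarith

/-- The bound for the distance `y` from the edge. -/
noncomputable def Ly (q : ℕ) (y : ℝ) : ℝ := 1 + Real.log (1 + 1 / (y * Real.log q))

lemma Ly_ge {q : ℕ} {y : ℝ} (hy : 0 < y) : 1 ≤ Ly q y := by
  unfold Ly
  have h1 : (0 : ℝ) ≤ 1 / (y * Real.log q) := by
    have := Real.log_natCast_nonneg q
    positivity
  have h2 := Real.log_nonneg (show (1 : ℝ) ≤ 1 + 1 / (y * Real.log q) by linarith)
  linarith

lemma weights_le {q : ℕ} (hq : 2 ≤ q) {y : ℝ} (hy : 0 < y) (M : ℕ) :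
    ∑ j ∈ Ico (Nat.log 2 q) M, (2 : ℝ) ^ (-(j : ℝ) * y) /
      Real.sqrt (j * ((j - Nat.log 2 q : ℕ) + 1)) ≤ 3 * Ly q y := by
  have hl2 := log2_ge
  have hJ : 1 ≤ Nat.log 2 q := Nat.log_pos (by norm_num) hq
  have hJ0 : (1 : ℝ) ≤ Nat.log 2 q := by exact_mod_cast hJ
  have hlq : 0 < Real.log q := Real.log_pos (by exact_mod_cast (by omega : 1 < q))
  refine (weights hy hJ M).trans ?_
  set x : ℝ := 1 / (y * Real.log q) with hx
  have hx0 : 0 < x := by positivity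
  have h1 : 1 / (y * Real.log 2 * Nat.log 2 q) ≤ 2 * x := by
    rw [hx, mul_one_div, div_le_div_iff₀ (by positivity) (by positivity)]
    have := log_J hq
    nlinarith
  have h2 : Real.log (1 + 1 / (y * Real.log 2 * Nat.log 2 q)) ≤ 2 * Real.log (1 + x) := by
    have h3 : Real.log ((1 + x) ^ 2) = 2 * Real.log (1 + x) := by
      rw [Real.log_pow]
      norm_num
    rw [← h3]
    refine Real.log_le_log (by positivity) ?_
    nlinarith
  have h3 : 0 ≤ Real.log (1 + x) := Real.log_nonneg (by linarith)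
  unfold Ly
  rw [← hx]
  linarith

/-- **The large primes.** -/
theorem prime_tail {q : ℕ} [NeZero q] (hq : 2 ≤ q) {a : ℕ → ℂ} {D : ℝ} (hD : 0 ≤ D)
    (ha : ∀ p, ‖a p‖ ≤ D) {y : ℝ} (hy : 0 < y) (t : ℝ) (F : Finset ℕ)
    (hF : ∀ p ∈ F, p.Prime ∧ q ≤ p) :
    ∑ χ : DirichletCharacter ℂ q,
      ‖∑ p ∈ F, a p / p * Complex.exp (-((y : ℂ) + t * Complex.I) * Real.log p) *
        χ (p : ZMod q)‖ ^ 2 ≤ (450 * D * Ly q y) ^ 2 := by
  set b : ℕ → ℂ := fun p => a p / p * Complex.exp (-((y : ℂ) + t * Complex.I) * Real.log p)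
    with hb
  set J := Nat.log 2 q with hJdef
  have hJ : 1 ≤ J := Nat.log_pos (by norm_num) hq
  obtain ⟨M, hM⟩ : ∃ M, ∀ p ∈ F, Nat.log 2 p < M :=
    ⟨F.sup (Nat.log 2) + 1, fun p hp => Nat.lt_succ_of_le (le_sup (f := Nat.log 2) hp)⟩
  have hmaps : ∀ p ∈ F, Nat.log 2 p ∈ Ico J M := fun p hp =>
    mem_Ico.2 ⟨Nat.log_mono_right (hF p hp).2, hM p hp⟩
  have h1 : ∀ χ : DirichletCharacter ℂ q, ∑ p ∈ F, b p * χ (p : ZMod q) =
      ∑ j ∈ Ico J M, ∑ p ∈ F.filter (fun p => Nat.log 2 p = j), b p * χ (p : ZMod q) := fun χ =>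
    (sum_fiberwise_of_maps_to hmaps _).symm
  change ∑ χ : DirichletCharacter ℂ q, ‖∑ p ∈ F, b p * χ (p : ZMod q)‖ ^ 2 ≤ _
  simp_rw [h1]
  set w : ℕ → ℝ := fun j => 150 * D * ((2 : ℝ) ^ (-(j : ℝ) * y) /
      Real.sqrt (j * ((j - J : ℕ) + 1))) with hw
  have h2 := mink (C := DirichletCharacter ℂ q) (Ico J M)
    (fun j χ => ∑ p ∈ F.filter (fun p => Nat.log 2 p = j), b p * χ (p : ZMod q)) w
    (fun j _ => by rw [hw]; positivity) (fun j hj => by
      have hj1 : J ≤ j := (mem_Ico.1 hj).1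
      refine (block_sq q (j := j) (by omega) hj1 (F.filter fun p => Nat.log 2 p = j)
        (fun p hp => ?_) b (D := D) (r := (2 : ℝ) ^ (-(j : ℝ) * y)) hD (by positivity)
        fun p hp => ?_).trans (le_of_eq ?_)
      · rw [mem_filter] at hp
        have hp0 : p ≠ 0 := (hF p hp.1).1.ne_zero
        refine ⟨(hF p hp.1).1, ?_, ?_⟩
        · rw [← hp.2]
          exact Nat.pow_log_le_self 2 hp0
        · rw [← hp.2]
          exact Nat.lt_pow_succ_log_self (by norm_num) p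
      · rw [mem_filter] at hp
        have hp0 : p ≠ 0 := (hF p hp.1).1.ne_zero
        have hpj : (2 : ℝ) ^ j ≤ p := by
          rw [← hp.2]
          exact_mod_cast Nat.pow_log_le_self 2 hp0
        have hpp : (0 : ℝ) < p := by positivity
        have h3 : ‖Complex.exp (-((y : ℂ) + t * Complex.I) * Real.log p)‖ =
            (p : ℝ) ^ (-y) := by
          rw [Complex.norm_exp, Real.rpow_def_of_pos hpp, Complex.re_mul_ofReal]
          congr 1
          have h9 : (-((y : ℂ) + t * Complex.I)).re = -y := by simp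
          rw [h9]
          ring
        rw [hb]
        simp only
        rw [norm_mul, norm_div, Complex.norm_natCast, h3]
        have h4 : (p : ℝ) ^ (-y) ≤ (2 : ℝ) ^ (-(j : ℝ) * y) := by
          have h5 : (2 : ℝ) ^ (-(j : ℝ) * y) = ((2 : ℝ) ^ j) ^ (-y) := by
            rw [← Real.rpow_natCast, ← Real.rpow_mul (by norm_num)]
            congr 1
            ring
          rw [h5]
          exact Real.rpow_le_rpow_of_nonpos (by positivity) hpj (by linarith)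
        calc ‖a p‖ / p * (p : ℝ) ^ (-y) ≤ D / 2 ^ j * (2 : ℝ) ^ (-(j : ℝ) * y) := by
              gcongr
              exact ha p
          _ = _ := by ring
      · rw [hw]
        simp only
        rw [mul_pow (150 * D), mul_pow (150 * D), div_pow, Real.sq_sqrt (by positivity)]
        ring)
  refine h2.trans ?_
  refine pow_le_pow_left₀ (sum_nonneg fun j _ => by rw [hw]; positivity) ?_ 2
  rw [hw, ← mul_sum]
  have h3 := weights_le hq hy M
  calc 150 * D * ∑ j ∈ Ico J M, (2 : ℝ) ^ (-(j : ℝ) * y) / Real.sqrt (j * ((j - J : ℕ) + 1))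
      ≤ 150 * D * (3 * Ly q y) := by gcongr
    _ = _ := by ring

end Run7.h522.QA
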