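import Pool.Agent.Run7.h522.QA.Fin
import Pool.Agent.Run7.h522.QA.Tail

/-!
# Twists by Dirichlet characters
-/

set_option autoImplicit false

namespace Run7.h522.QA

open NumberField IsDedekindDomain Filter Topology Pool.Agent.H921R2.TatePole
  Pool.Agent.W350.Edge Pool.Agent.W350.EdgeV Pool.Agent.W350.EdgeNF Pool.Agent.TH958.BV
  Run7.h522.BM

variable {K : Type} [Field K] [NumberField K] {i N : ℕ} {S : Set (HeightOneSpectrum (𝓞 K))}
  {α : HeightOneSpectrum (𝓞 K) → Fin N → ℂ} {q : ℕ}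

/-- The places of `S` and the places whose norm is not prime to `q`. -/
def Sx (S : Set (HeightOneSpectrum (𝓞 K))) (q : ℕ) : Set (HeightOneSpectrum (𝓞 K)) :=
  {v | v ∈ S ∨ ¬ IsUnit ((nm v : ℕ) : ZMod q)}

/-- The twisted eigenvalues. -/
noncomputable def ax (α : HeightOneSpectrum (𝓞 K) → Fin N → ℂ) (χ : DirichletCharacter ℂ q)
    (v : HeightOneSpectrum (𝓞 K)) (j : Fin N) : ℂ := χ ((nm v : ℕ) : ZMod q) * α v j

lemma norm_chi_unit (χ : DirichletCharacter ℂ q) {a : ZMod q} (ha : IsUnit a) : ‖χ a‖ = 1 := by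
  obtain ⟨u, rfl⟩ := ha
  exact χ.unit_norm_eq_one u

lemma Wt_x (hα : Wt S i α) (χ : DirichletCharacter ℂ q) : Wt (Sx S q) i (ax α χ) := by
  intro v hv j
  have h1 : v ∉ S := fun h => hv (Or.inl h)
  have h2 : IsUnit ((nm v : ℕ) : ZMod q) := by
    by_contra h
    exact hv (Or.inr h)
  unfold ax
  rw [norm_mul, norm_chi_unit χ h2, one_mul, hα v h1 j]

lemma tv_x (χ : DirichletCharacter ℂ q) (v : HeightOneSpectrum (𝓞 K)) :
    tv (Sx S q) i (ax α χ) v = χ ((nm v : ℕ) : ZMod q) * tv S i α v := by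
  by_cases h1 : v ∈ S
  · rw [tv_mem (show v ∈ Sx S q from Or.inl h1), tv_mem h1, mul_zero]
  · by_cases h2 : IsUnit ((nm v : ℕ) : ZMod q)
    · have h3 : v ∉ Sx S q := by
        rintro (h | h)
        · exact h1 h
        · exact h h2
      rw [tv_notMem h3, tv_notMem h1]
      unfold ax
      rw [← Finset.mul_sum, mul_div_assoc]
    · rw [tv_mem (show v ∈ Sx S q from Or.inr h2), χ.map_nonunit h2, zero_mul]

lemma cp_x (χ : DirichletCharacter ℂ q) (p : ℕ) :
    cp (Sx S q) i (ax α χ) p = χ ((p : ℕ) : ZMod q) * cp S i α p := by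
  unfold cp
  split_ifs with hp
  · unfold grp
    rw [← tsum_mul_left]
    refine tsum_congr fun v => ?_
    have h3 : nm v.1 = p := v.2
    rw [tv_x, h3]
  · rw [mul_zero]

lemma bp_x (χ : DirichletCharacter ℂ q) (y t : ℝ) (p : ℕ) :
    bp (Sx S q) i (ax α χ) y t p = bp S i α y t p * χ ((p : ℕ) : ZMod q) := by
  unfold bp
  rw [cp_x]
  ring

section mean

variable [NeZero q]

lemma card_char : (Fintype.card (DirichletCharacter ℂ q) : ℝ) = Nat.totient q := by
  have h := char_corr (q := q) 1 1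
  rw [if_pos ⟨rfl, by simp⟩] at h
  have h1 : ∀ χ : DirichletCharacter ℂ q, χ ((1 : ℕ) : ZMod q) *
      (starRingEnd ℂ) (χ ((1 : ℕ) : ZMod q)) = 1 := by
    intro χ
    simp
  simp_rw [h1] at h
  rw [Finset.sum_const, Finset.card_univ, nsmul_eq_mul, mul_one] at h
  exact_mod_cast h

lemma tot_pos : (0 : ℝ) < Nat.totient q := by
  exact_mod_cast Nat.totient_pos.2 (Nat.pos_of_ne_zero (NeZero.ne q))

/-- A sum over distinct residue classes. -/
lemma char_sq_small (B : Finset ℕ) (hB : ∀ p ∈ B, p < q) (b : ℕ → ℂ) :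
    ∑ χ : DirichletCharacter ℂ q, ‖∑ p ∈ B, b p * χ (p : ZMod q)‖ ^ 2 ≤
      Nat.totient q * ∑ p ∈ B, ‖b p‖ ^ 2 := by
  refine (char_sq B b).trans (mul_le_mul_of_nonneg_left ?_ (Nat.cast_nonneg _))
  refine Finset.sum_le_sum fun p hp => ?_
  have h1 : B.filter (fun p' => p' % q = p % q) = {p} := by
    ext p'
    rw [Finset.mem_filter, Finset.mem_singleton]
    constructor
    · rintro ⟨h1, h2⟩
      rwa [Nat.mod_eq_of_lt (hB p' h1), Nat.mod_eq_of_lt (hB p hp)] at h2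
    · rintro rfl
      exact ⟨hp, rfl⟩
  rw [h1, Finset.sum_singleton, sq]

lemma add_sq_le (x z : ℂ) : ‖x + z‖ ^ 2 ≤ 2 * ‖x‖ ^ 2 + 2 * ‖z‖ ^ 2 := by
  have h6 := norm_add_le x z
  have h7 : ‖x + z‖ ^ 2 ≤ (‖x‖ + ‖z‖) ^ 2 := pow_le_pow_left₀ (norm_nonneg _) h6 2
  nlinarith [sq_nonneg (‖x‖ - ‖z‖)]

lemma norm_bp_le (hα : Wt S i α) {y : ℝ} (hy : 0 ≤ y) (t : ℝ) {p : ℕ} (hp : 1 ≤ p) :
    ‖bp S i α y t p‖ ≤ N * Module.finrank ℚ K / p := by
  have hp0 : (1 : ℝ) ≤ p := by exact_mod_cast hp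
  unfold bp
  rw [norm_mul, norm_div, Complex.norm_natCast]
  have h1 : ‖Complex.exp (-((y : ℂ) + t * Complex.I) * Real.log p)‖ ≤ 1 := by
    rw [Complex.norm_exp, Complex.re_mul_ofReal, Real.exp_le_one_iff]
    have h2 : (-((y : ℂ) + t * Complex.I)).re = -y := by simp
    rw [h2]
    have := Real.log_nonneg hp0
    nlinarith
  calc ‖cp S i α p‖ / p * ‖Complex.exp (-((y : ℂ) + t * Complex.I) * Real.log p)‖
      ≤ (N * Module.finrank ℚ K / p) * 1 := by
        gcongr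
        exact norm_cp hα p
    _ = _ := mul_one _

/-- The middle range, in mean square. -/
lemma mid (hα : Wt S i α) {y : ℝ} (hy : 0 ≤ y) (t : ℝ) {Z : ℕ} (hZ : 1 ≤ Z) :
    ∑ χ : DirichletCharacter ℂ q,
      ‖∑ v ∈ FZ K Z q, lv (Sx S q) (ax α χ) v (se i t + y)‖ ^ 2 ≤
        Nat.totient q * (76 * (N * Module.finrank ℚ K) ^ 2 / Z) := by
  set D : ℝ := N * Module.finrank ℚ K with hD
  have hD0 : 0 ≤ D := by positivity
  have hZ0 : (1 : ℝ) ≤ Z := by exact_mod_cast hZ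
  have h1 : ∀ χ : DirichletCharacter ℂ q,
      ‖∑ v ∈ FZ K Z q, lv (Sx S q) (ax α χ) v (se i t + y)‖ ^ 2 ≤
        2 * ‖∑ p ∈ (Finset.Ico Z q).filter Nat.Prime, bp S i α y t p * χ (p : ZMod q)‖ ^ 2 +
          72 * D ^ 2 / Z := by
    intro χ
    rw [sum_lv (Wt_x hα χ)]
    simp_rw [bp_x]
    refine (add_sq_le _ _).trans ?_
    have h2 := norm_sum_sm (Wt_x hα χ) hy t hZ q
    have h3 : ‖∑ v ∈ FZ K Z q, sm (Sx S q) i (ax α χ) y t v‖ ^ 2 ≤ 36 * D ^ 2 / Z := by
      calc _ ≤ (6 * (N * Module.finrank ℚ K) / Real.sqrt Z) ^ 2 :=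
            pow_le_pow_left₀ (norm_nonneg _) h2 2
        _ = 36 * D ^ 2 / Z := by
            rw [div_pow, Real.sq_sqrt (by linarith)]
            ring
    have h4 : 2 * (36 * D ^ 2 / Z) = 72 * D ^ 2 / (Z : ℝ) := by ring
    linarith
  calc ∑ χ : DirichletCharacter ℂ q,
      ‖∑ v ∈ FZ K Z q, lv (Sx S q) (ax α χ) v (se i t + y)‖ ^ 2
      ≤ ∑ χ : DirichletCharacter ℂ q, (2 * ‖∑ p ∈ (Finset.Ico Z q).filter Nat.Prime,
          bp S i α y t p * χ (p : ZMod q)‖ ^ 2 + 72 * D ^ 2 / Z) :=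
        Finset.sum_le_sum fun χ _ => h1 χ
    _ = 2 * (∑ χ : DirichletCharacter ℂ q, ‖∑ p ∈ (Finset.Ico Z q).filter Nat.Prime,
          bp S i α y t p * χ (p : ZMod q)‖ ^ 2) + Nat.totient q * (72 * D ^ 2 / Z) := by
        rw [Finset.sum_add_distrib, ← Finset.mul_sum, Finset.sum_const, Finset.card_univ,
          nsmul_eq_mul, card_char]
    _ ≤ 2 * (Nat.totient q * ∑ p ∈ (Finset.Ico Z q).filter Nat.Prime, ‖bp S i α y t p‖ ^ 2) +
          Nat.totient q * (72 * D ^ 2 / Z) := by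
        gcongr
        exact char_sq_small _ (fun p hp => (Finset.mem_Ico.1 (Finset.mem_filter.1 hp).1).2) _
    _ ≤ 2 * (Nat.totient q * (D ^ 2 * (2 / Z))) + Nat.totient q * (72 * D ^ 2 / Z) := by
        gcongr
        calc ∑ p ∈ (Finset.Ico Z q).filter Nat.Prime, ‖bp S i α y t p‖ ^ 2
            ≤ ∑ p ∈ (Finset.Ico Z q).filter Nat.Prime, D ^ 2 * (1 / (p : ℝ) ^ 2) := by
              refine Finset.sum_le_sum fun p hp => ?_
              have hp1 : 1 ≤ p := (Finset.mem_filter.1 hp).2.one_le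
              calc ‖bp S i α y t p‖ ^ 2 ≤ (D / p) ^ 2 :=
                    pow_le_pow_left₀ (norm_nonneg _) (norm_bp_le hα hy t hp1) 2
                _ = _ := by rw [div_pow, mul_one_div]
          _ ≤ ∑ p ∈ Finset.Ico Z q, D ^ 2 * (1 / (p : ℝ) ^ 2) :=
              Finset.sum_le_sum_of_subset_of_nonneg (Finset.filter_subset _ _)
                fun p _ _ => by positivity
          _ = D ^ 2 * ∑ p ∈ Finset.Ico Z q, 1 / (p : ℝ) ^ 2 := (Finset.mul_sum _ _ _).symm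
          _ ≤ _ := mul_le_mul_of_nonneg_left (sum_inv_sq hZ) (sq_nonneg D)
    _ = _ := by ring

/-- The large places, in mean square: finite form. -/
lemma far_fin (hα : Wt S i α) (hq : 2 ≤ q) {y : ℝ} (hy : 0 < y) (t : ℝ) (X : ℕ) :
    ∑ χ : DirichletCharacter ℂ q,
      ‖∑ v ∈ FZ K q X, lv (Sx S q) (ax α χ) v (se i t + y)‖ ^ 2 ≤
        (640 * (N * Module.finrank ℚ K) * Ly q y) ^ 2 := by
  set D : ℝ := N * Module.finrank ℚ K with hD
  have hD0 : 0 ≤ D := by positivity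
  have hq0 : (2 : ℝ) ≤ q := by exact_mod_cast hq
  have hL := Ly_ge (q := q) hy
  have h1 : ∀ χ : DirichletCharacter ℂ q,
      ‖∑ v ∈ FZ K q X, lv (Sx S q) (ax α χ) v (se i t + y)‖ ^ 2 ≤
        2 * ‖∑ p ∈ (Finset.Ico q X).filter Nat.Prime, bp S i α y t p * χ (p : ZMod q)‖ ^ 2 +
          72 * D ^ 2 / q := by
    intro χ
    rw [sum_lv (Wt_x hα χ)]
    simp_rw [bp_x]
    refine (add_sq_le _ _).trans ?_
    have h2 := norm_sum_sm (Wt_x hα χ) hy.le t (by omega : 1 ≤ q) X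
    have h3 : ‖∑ v ∈ FZ K q X, sm (Sx S q) i (ax α χ) y t v‖ ^ 2 ≤ 36 * D ^ 2 / q := by
      calc _ ≤ (6 * (N * Module.finrank ℚ K) / Real.sqrt q) ^ 2 :=
            pow_le_pow_left₀ (norm_nonneg _) h2 2
        _ = 36 * D ^ 2 / q := by
            rw [div_pow, Real.sq_sqrt (by linarith)]
            ring
    have h4 : 2 * (36 * D ^ 2 / q) = 72 * D ^ 2 / (q : ℝ) := by ring
    linarith
  have h2 := prime_tail hq hD0 (norm_cp hα) hy t ((Finset.Ico q X).filter Nat.Prime)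
    fun p hp => ⟨(Finset.mem_filter.1 hp).2, (Finset.mem_Ico.1 (Finset.mem_filter.1 hp).1).1⟩
  calc ∑ χ : DirichletCharacter ℂ q,
      ‖∑ v ∈ FZ K q X, lv (Sx S q) (ax α χ) v (se i t + y)‖ ^ 2
      ≤ ∑ χ : DirichletCharacter ℂ q, (2 * ‖∑ p ∈ (Finset.Ico q X).filter Nat.Prime,
          bp S i α y t p * χ (p : ZMod q)‖ ^ 2 + 72 * D ^ 2 / q) :=
        Finset.sum_le_sum fun χ _ => h1 χ
    _ = 2 * (∑ χ : DirichletCharacter ℂ q, ‖∑ p ∈ (Finset.Ico q X).filter Nat.Prime,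
          bp S i α y t p * χ (p : ZMod q)‖ ^ 2) + Nat.totient q * (72 * D ^ 2 / q) := by
        rw [Finset.sum_add_distrib, ← Finset.mul_sum, Finset.sum_const, Finset.card_univ,
          nsmul_eq_mul, card_char]
    _ ≤ 2 * (450 * D * Ly q y) ^ 2 + q * (72 * D ^ 2 / q) := by
        gcongr
        · exact h2
        · exact_mod_cast Nat.totient_le q
    _ = 2 * (450 * D * Ly q y) ^ 2 + 72 * D ^ 2 := by
        rw [mul_div_cancel₀]
        linarith
    _ ≤ _ := by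
        have h3 : D ^ 2 ≤ D ^ 2 * Ly q y ^ 2 := by
          have : 1 ≤ Ly q y ^ 2 := one_le_pow₀ hL
          nlinarith [sq_nonneg D]
        nlinarith [sq_nonneg (D * Ly q y)]

/-- **All but few characters.** -/
theorem far (hα : Wt S i α) (hq : 2 ≤ q) {y : ℝ} (hy : 0 < y) (t : ℝ) :
    ∑ χ : DirichletCharacter ℂ q,
      ‖logL (Sx S q) (ax α χ) (se i t + y) -
        ∑ v ∈ FV nm hfin q, lv (Sx S q) (ax α χ) v (se i t + y)‖ ^ 2 ≤
        (640 * (N * Module.finrank ℚ K) * Ly q y) ^ 2 := by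
  have h1 : Tendsto (fun X => ∑ χ : DirichletCharacter ℂ q,
      ‖∑ v ∈ FZ K q X, lv (Sx S q) (ax α χ) v (se i t + y)‖ ^ 2) atTop
      (𝓝 (∑ χ : DirichletCharacter ℂ q, ‖logL (Sx S q) (ax α χ) (se i t + y) -
        ∑ v ∈ FV nm hfin q, lv (Sx S q) (ax α χ) v (se i t + y)‖ ^ 2)) :=
    tendsto_finsetSum _ fun χ _ => ((logL_sub (Wt_x hα χ) hy t q).norm).pow 2
  exact le_of_tendsto' h1 fun X => far_fin hα hq hy t X

/-- **The second moment.** -/
theorem second (hα : Wt S i α) (hq : 2 ≤ q) {y : ℝ} (hy : 0 < y) (t : ℝ) :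
    ∑ χ : DirichletCharacter ℂ q, ‖logL (Sx S q) (ax α χ) (se i t + y)‖ ^ 2 ≤
        (1000 * (N * Module.finrank ℚ K)) ^ 2 * (Nat.totient q + Ly q y ^ 2) := by
  set D : ℝ := N * Module.finrank ℚ K with hD
  have hphi := tot_pos (q := q)
  have h1 : FV (nm : HeightOneSpectrum (𝓞 K) → ℕ) hfin q = FZ K 1 q := by
    ext v
    rw [mem_FV, mem_FZ]
    have := two_le_nm v
    omega
  have h2 := far hα hq hy t
  have h3 := mid (q := q) hα hy.le t (Z := 1) le_rfl
  calc ∑ χ : DirichletCharacter ℂ q, ‖logL (Sx S q) (ax α χ) (se i t + y)‖ ^ 2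
      ≤ ∑ χ : DirichletCharacter ℂ q, (2 * ‖logL (Sx S q) (ax α χ) (se i t + y) -
        ∑ v ∈ FV nm hfin q, lv (Sx S q) (ax α χ) v (se i t + y)‖ ^ 2 +
          2 * ‖∑ v ∈ FZ K 1 q, lv (Sx S q) (ax α χ) v (se i t + y)‖ ^ 2) := by
        refine Finset.sum_le_sum fun χ _ => ?_
        rw [h1]
        have := add_sq_le (logL (Sx S q) (ax α χ) (se i t + y) -
          ∑ v ∈ FZ K 1 q, lv (Sx S q) (ax α χ) v (se i t + y))
          (∑ v ∈ FZ K 1 q, lv (Sx S q) (ax α χ) v (se i t + y))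
        rwa [sub_add_cancel] at this
    _ = 2 * (∑ χ : DirichletCharacter ℂ q, ‖logL (Sx S q) (ax α χ) (se i t + y) -
        ∑ v ∈ FV nm hfin q, lv (Sx S q) (ax α χ) v (se i t + y)‖ ^ 2) +
          2 * ∑ χ : DirichletCharacter ℂ q,
            ‖∑ v ∈ FZ K 1 q, lv (Sx S q) (ax α χ) v (se i t + y)‖ ^ 2 := by
        rw [Finset.sum_add_distrib, Finset.mul_sum, Finset.mul_sum]
    _ ≤ 2 * (640 * D * Ly q y) ^ 2 + 2 * (Nat.totient q * (76 * D ^ 2 / ((1 : ℕ) : ℝ))) := by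
        gcongr
    _ ≤ _ := by
        push_cast
        have h4 : 0 ≤ D ^ 2 * Nat.totient q := by positivity
        have h5 : 0 ≤ D ^ 2 * Ly q y ^ 2 := by positivity
        nlinarith

end mean

section near

/-- The logarithm near zero. -/
lemma log_diff {w : ℂ} (hw : ‖w‖ ≤ 1 / 2) {ρ : ℝ} (h0 : 0 ≤ ρ) (h1 : ρ ≤ 1) :
    ‖-Complex.log (1 - w * ρ) - -Complex.log (1 - w)‖ ≤ 2 * ‖w‖ * (1 - ρ) := by
  have hd : ∀ z ∈ Metric.closedBall (0 : ℂ) (1 / 2),
      HasDerivWithinAt (fun z => -Complex.log (1 - z)) (-(-1 / (1 - z)))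
        (Metric.closedBall (0 : ℂ) (1 / 2)) z := by
    intro z hz
    rw [mem_closedBall_zero_iff] at hz
    have h2 : (1 - z) ∈ Complex.slitPlane := by
      left
      rw [Complex.sub_re, Complex.one_re]
      linarith [(le_abs_self _).trans (Complex.abs_re_le_norm z)]
    have h3 : HasDerivAt (fun z : ℂ => 1 - z) (-1) z := by
      simpa using (hasDerivAt_id z).const_sub 1
    exact ((h3.clog h2).neg).hasDerivWithinAt
  have hb : ∀ z ∈ Metric.closedBall (0 : ℂ) (1 / 2), ‖(-(-1 / (1 - z)) : ℂ)‖ ≤ 2 := by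
    intro z hz
    rw [mem_closedBall_zero_iff] at hz
    rw [norm_neg, norm_div, norm_neg, norm_one]
    have h2 : 1 / 2 ≤ ‖1 - z‖ := by
      have := norm_sub_norm_le (1 : ℂ) z
      rw [norm_one] at this
      linarith
    rw [div_le_iff₀ (by linarith)]
    linarith
  have hmem : w ∈ Metric.closedBall (0 : ℂ) (1 / 2) := by
    rwa [mem_closedBall_zero_iff]
  have hmem2 : w * ρ ∈ Metric.closedBall (0 : ℂ) (1 / 2) := by
    rw [mem_closedBall_zero_iff, norm_mul, Complex.norm_real, Real.norm_of_nonneg h0]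
    nlinarith [norm_nonneg w]
  have h2 := (convex_closedBall (0 : ℂ) (1 / 2)).norm_image_sub_le_of_norm_hasDerivWithin_le
    hd hb hmem hmem2
  refine h2.trans (le_of_eq ?_)
  have h3 : w * (ρ : ℂ) - w = -(w * ((1 - ρ : ℝ) : ℂ)) := by
    push_cast
    ring
  rw [h3, norm_neg, norm_mul, Complex.norm_real, Real.norm_of_nonneg (by linarith)]
  ring

/-- Moving away from the edge. -/
lemma lv_diff (hα : Wt S i α) (v : HeightOneSpectrum (𝓞 K)) {y : ℝ} (hy : 0 ≤ y) (t : ℝ) :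
    ‖lv S α v (se i t + y) - lv S α v (se i t)‖ ≤ 2 * N * y := by
  by_cases h : v ∈ S
  · unfold lv
    rw [if_pos h, if_pos h, sub_zero, norm_zero]
    positivity
  · unfold lv
    rw [if_neg h, if_neg h, ← Finset.sum_sub_distrib]
    have hn2 : 2 ≤ nm v := two_le_nm v
    have hn : (2 : ℝ) ≤ nm v := by exact_mod_cast hn2
    have hn0 : (0 : ℝ) < nm v := by linarith
    refine (norm_sum_le_of_le (n := fun _ => 2 * y) _ fun j _ => ?_).trans ?_
    · set w : ℂ := α v j * (Ideal.absNorm v.asIdeal : ℂ) ^ (-se i t) with hw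
      have hwn : ‖w‖ = 1 / nm v := by
        rw [hw, norm_mul, hα v h j]
        have h1 := Complex.norm_natCast_cpow_of_pos (n := nm v) (by omega) (-se i t)
        rw [Complex.neg_re, se_re] at h1
        have h2 : ‖(Ideal.absNorm v.asIdeal : ℂ) ^ (-se i t)‖ =
            (nm v : ℝ) ^ (-((i : ℝ) / 2 + 1)) := h1
        rw [h2, ← Real.rpow_add hn0]
        have h5 : (i : ℝ) / 2 + -((i : ℝ) / 2 + 1) = -1 := by ring
        rw [h5, Real.rpow_neg_one, one_div]
      have hne : (Ideal.absNorm v.asIdeal : ℂ) ≠ 0 := by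
        have : Ideal.absNorm v.asIdeal ≠ 0 := nm_ne_zero v
        exact_mod_cast this
      have h3 : α v j * (Ideal.absNorm v.asIdeal : ℂ) ^ (-(se i t + (y : ℂ))) =
          w * (((nm v : ℝ) ^ (-y) : ℝ) : ℂ) := by
        rw [neg_add, Complex.cpow_add _ _ hne, hw, mul_assoc]
        congr 2
        rw [Complex.ofReal_cpow hn0.le]
        push_cast
        rfl
      rw [h3]
      have h4 : (nm v : ℝ) ^ (-y) ≤ 1 :=
        Real.rpow_le_one_of_one_le_of_nonpos (by linarith) (by linarith)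
      have h6 : 1 - (nm v : ℝ) ^ (-y) ≤ y * Real.log (nm v) := by
        rw [Real.rpow_def_of_pos hn0]
        have := Real.add_one_le_exp (Real.log (nm v) * -y)
        linarith
      refine (log_diff (by
        rw [hwn]
        exact one_div_le_one_div_of_le two_pos hn) (by positivity) h4).trans ?_
      rw [hwn]
      have h7 : Real.log (nm v) ≤ nm v := (Real.log_le_sub_one_of_pos hn0).trans (by linarith)
      calc 2 * (1 / (nm v : ℝ)) * (1 - (nm v : ℝ) ^ (-y))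
          ≤ 2 * (1 / (nm v : ℝ)) * (y * nm v) := by
            gcongr
            exact h6.trans (mul_le_mul_of_nonneg_left h7 hy)
        _ = 2 * y := by field_simp
    · rw [Finset.sum_const, Finset.card_univ, Fintype.card_fin, nsmul_eq_mul]
      exact le_of_eq (by ring)

end near

end Run7.h522.QA
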