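import Pool.Agent.Run7.h522.BM.Torus

/-!
# Finite sums over the places, to the right of the edge
-/

set_option autoImplicit false

namespace Run7.h522.QA

open NumberField IsDedekindDomain Filter Topology Pool.Agent.H921R2.TatePole
  Pool.Agent.W350.Edge Pool.Agent.W350.EdgeV Pool.Agent.W350.EdgeNF Pool.Agent.TH958.BV
  Run7.h522.BM

section places

variable {K : Type} [Field K] [NumberField K]

/-- The places with `Z ≤ q_v < X`. -/
noncomputable def FZ (K : Type) [Field K] [NumberField K] (Z X : ℕ) :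
    Finset (HeightOneSpectrum (𝓞 K)) := by
  classical exact (FV nm hfin X).filter fun v => Z ≤ nm v

lemma mem_FZ {Z X : ℕ} {v : HeightOneSpectrum (𝓞 K)} : v ∈ FZ K Z X ↔ nm v < X ∧ Z ≤ nm v := by
  unfold FZ
  rw [Finset.mem_filter, mem_FV]

/-- `min (1 / p²) (1 / Z)` for the prime `p` below `v`. -/
noncomputable def mz (Z p : ℕ) : ℝ := min (1 / (p : ℝ) ^ 2) (1 / (Z : ℝ))

lemma mz_nonneg (Z p : ℕ) : 0 ≤ mz Z p := by
  unfold mz
  positivity

lemma sum_mz {Z : ℕ} (hZ : 1 ≤ Z) (G : Finset ℕ) (hG : ∀ p ∈ G, 1 ≤ p) :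
    ∑ p ∈ G, mz Z p ≤ 3 / Real.sqrt Z := by
  classical
  have hZ0 : (1 : ℝ) ≤ Z := by exact_mod_cast hZ
  set r := Nat.sqrt Z with hr
  have hs : 0 < Real.sqrt (Z : ℝ) := Real.sqrt_pos.2 (by linarith)
  have hss : Real.sqrt (Z : ℝ) ^ 2 = Z := Real.sq_sqrt (by linarith)
  have hr1 : (r : ℝ) ≤ Real.sqrt Z := by
    refine Real.le_sqrt_of_sq_le ?_
    have := Nat.sqrt_le' Z
    exact_mod_cast this
  have hr2 : Real.sqrt Z ≤ r + 1 := by
    rw [Real.sqrt_le_left (by positivity)]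
    have := Nat.succ_le_succ_sqrt' Z
    have h2 : Z ≤ (r + 1) ^ 2 := by
      have := Nat.lt_succ_sqrt' Z
      exact this.le
    exact_mod_cast h2
  obtain ⟨M, hM⟩ : ∃ M, ∀ p ∈ G, p < M :=
    ⟨G.sup id + 1, fun p hp => Nat.lt_succ_of_le (Finset.le_sup (f := id) hp)⟩
  have hsub : G ⊆ Finset.Ico 1 (r + 1) ∪ Finset.Ico (r + 1) M := by
    intro p hp
    rw [Finset.mem_union, Finset.mem_Ico, Finset.mem_Ico]
    have := hG p hp
    have := hM p hp
    omega
  have h1 : ∑ p ∈ Finset.Ico 1 (r + 1), mz Z p ≤ 1 / Real.sqrt Z := by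
    calc ∑ p ∈ Finset.Ico 1 (r + 1), mz Z p ≤ ∑ p ∈ Finset.Ico 1 (r + 1), 1 / (Z : ℝ) :=
          Finset.sum_le_sum fun p _ => min_le_right _ _
      _ = r / Z := by
          rw [Finset.sum_const, Nat.card_Ico, nsmul_eq_mul, Nat.add_sub_cancel, mul_one_div]
      _ ≤ Real.sqrt Z / Z := by gcongr
      _ = 1 / Real.sqrt Z := by
          nth_rewrite 2 [← hss]
          field_simp
  have h2 : ∑ p ∈ Finset.Ico (r + 1) M, mz Z p ≤ 2 / Real.sqrt Z := by
    calc ∑ p ∈ Finset.Ico (r + 1) M, mz Z p ≤ ∑ p ∈ Finset.Ico (r + 1) M, 1 / (p : ℝ) ^ 2 :=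
          Finset.sum_le_sum fun p _ => min_le_left _ _
      _ ≤ 2 / ((r + 1 : ℕ) : ℝ) := sum_inv_sq (by omega)
      _ ≤ 2 / Real.sqrt Z := by
          push_cast
          gcongr
  have h3 := Finset.sum_union_inter (s₁ := Finset.Ico 1 (r + 1)) (s₂ := Finset.Ico (r + 1) M)
    (f := mz Z)
  have h4 : 0 ≤ ∑ p ∈ Finset.Ico 1 (r + 1) ∩ Finset.Ico (r + 1) M, mz Z p :=
    Finset.sum_nonneg fun p _ => mz_nonneg Z p
  calc ∑ p ∈ G, mz Z p ≤ ∑ p ∈ Finset.Ico 1 (r + 1) ∪ Finset.Ico (r + 1) M, mz Z p :=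
        Finset.sum_le_sum_of_subset_of_nonneg hsub fun p _ _ => mz_nonneg Z p
    _ ≤ 1 / Real.sqrt Z + 2 / Real.sqrt Z := by linarith
    _ = 3 / Real.sqrt Z := by ring

lemma sum_mz_places {Z : ℕ} (hZ : 1 ≤ Z) (F : Finset (HeightOneSpectrum (𝓞 K))) :
    ∑ v ∈ F, mz Z (below v : ℕ) ≤ Module.finrank ℚ K * (3 / Real.sqrt Z) := by
  classical
  have hmaps : ∀ v ∈ F, below v ∈ F.image below := fun v hv => Finset.mem_image_of_mem _ hv
  rw [← Finset.sum_fiberwise_of_maps_to hmaps]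
  have h1 : ∀ p ∈ F.image below, ∑ v ∈ F.filter (fun v => below v = p), mz Z (below v : ℕ) ≤
      Module.finrank ℚ K * mz Z (p : ℕ) := by
    intro p _
    have h2 : ∑ v ∈ F.filter (fun v => below v = p), mz Z (below v : ℕ) =
        (F.filter (fun v => below v = p)).card * mz Z (p : ℕ) := by
      rw [Finset.sum_congr rfl fun v hv => by rw [(Finset.mem_filter.1 hv).2], Finset.sum_const,
        nsmul_eq_mul]
    rw [h2]
    refine mul_le_mul_of_nonneg_right ?_ (mz_nonneg _ _)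
    have h3 : (F.filter (fun v => below v = p)).card ≤
        Fintype.card {v : HeightOneSpectrum (𝓞 K) // below v = p} := by
      rw [← Finset.card_univ, ← Finset.card_image_of_injective _ Subtype.val_injective]
      refine Finset.card_le_card fun v hv => ?_
      rw [Finset.mem_image]
      exact ⟨⟨v, (Finset.mem_filter.1 hv).2⟩, Finset.mem_univ _, rfl⟩
    exact_mod_cast h3.trans (fiber_card_le (K := K) p)
  refine (Finset.sum_le_sum h1).trans ?_
  rw [← Finset.mul_sum]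
  refine mul_le_mul_of_nonneg_left ?_ (Nat.cast_nonneg _)
  have h2 : ∑ p ∈ F.image below, mz Z (p : ℕ) =
      ∑ n ∈ (F.image below).map ⟨fun p : Nat.Primes => (p : ℕ), Subtype.val_injective⟩, mz Z n := by
    rw [Finset.sum_map]
    rfl
  rw [h2]
  refine sum_mz hZ _ fun n hn => ?_
  rw [Finset.mem_map] at hn
  obtain ⟨p, -, rfl⟩ := hn
  exact p.2.one_le

lemma inv_nm_sq_le {Z : ℕ} (hZ : 1 ≤ Z) {v : HeightOneSpectrum (𝓞 K)} (hv : Z ≤ nm v) :
    (nm v : ℝ) ^ (-2 : ℝ) ≤ mz Z (below v : ℕ) := by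
  have h0 : (0 : ℝ) < ((below v : ℕ) : ℝ) := by exact_mod_cast (below v).2.pos
  have hn : (2 : ℝ) ≤ nm v := by exact_mod_cast two_le_nm v
  have hZ0 : (1 : ℝ) ≤ Z := by exact_mod_cast hZ
  have hZv : (Z : ℝ) ≤ nm v := by exact_mod_cast hv
  refine le_min ?_ ?_
  · have h1 := nm_sq_le v
    have h2 : ((below v : ℕ) : ℝ) ^ (-(2 : ℝ)) = 1 / ((below v : ℕ) : ℝ) ^ 2 := by
      rw [Real.rpow_neg h0.le, one_div]
      norm_cast
    rw [← h2]
    exact h1
  · have h2 : (nm v : ℝ) ^ (-2 : ℝ) = 1 / (nm v : ℝ) ^ 2 := by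
      rw [Real.rpow_neg (by linarith), one_div]
      norm_cast
    rw [h2]
    refine one_div_le_one_div_of_le (by linarith) ?_
    nlinarith

lemma norm_gv_le {a : HeightOneSpectrum (𝓞 K) → ℂ} {D : ℝ} (hD : 0 ≤ D) (ha : ∀ v, ‖a v‖ ≤ D)
    (τ : ℝ) {Z : ℕ} (hZ : 1 ≤ Z) {v : HeightOneSpectrum (𝓞 K)} (hv : Z ≤ nm v) :
    ‖gv a τ v‖ ≤ D * mz Z (below v : ℕ) := by
  have h0 : (0 : ℝ) < ((below v : ℕ) : ℝ) := by exact_mod_cast (below v).2.pos
  have h1 : ‖gv a τ v‖ ≤ D * (if (nm v).Prime then (0 : ℝ) else 1 / nm v) := by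
    unfold gv
    split_ifs
    · simp
    · rw [norm_vt, mul_one_div]
      exact div_le_div_of_nonneg_right (ha v) (Nat.cast_nonneg _)
  refine h1.trans (mul_le_mul_of_nonneg_left ?_ hD)
  refine le_min ?_ ?_
  · have h2 : ((below v : ℕ) : ℝ) ^ (-(2 : ℝ)) = 1 / ((below v : ℕ) : ℝ) ^ 2 := by
      rw [Real.rpow_neg h0.le, one_div]
      norm_cast
    rw [← h2]
    exact low_le v
  · split_ifs
    · positivity
    · refine one_div_le_one_div_of_le (by exact_mod_cast hZ) (by exact_mod_cast hv)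

end places

section main

variable {K : Type} [Field K] [NumberField K] {i N : ℕ} {S : Set (HeightOneSpectrum (𝓞 K))}
  {α : HeightOneSpectrum (𝓞 K) → Fin N → ℂ}

/-- The coefficient at the prime `p` to the right of the edge. -/
noncomputable def bp (S : Set (HeightOneSpectrum (𝓞 K))) (i : ℕ)
    (α : HeightOneSpectrum (𝓞 K) → Fin N → ℂ) (y t : ℝ) (p : ℕ) : ℂ :=
  cp S i α p / p * Complex.exp (-((y : ℂ) + t * Complex.I) * Real.log p)

/-- The small terms. -/
noncomputable def sm (S : Set (HeightOneSpectrum (𝓞 K))) (i : ℕ)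
    (α : HeightOneSpectrum (𝓞 K) → Fin N → ℂ) (y t : ℝ) (v : HeightOneSpectrum (𝓞 K)) : ℂ :=
  Complex.exp (-(y : ℂ) * Real.log (nm v)) * gv (tv S i α) t v + qv S α v (se i t + y)

lemma norm_sm (hα : Wt S i α) {y : ℝ} (hy : 0 ≤ y) (t : ℝ) {Z : ℕ} (hZ : 1 ≤ Z)
    {v : HeightOneSpectrum (𝓞 K)} (hv : Z ≤ nm v) :
    ‖sm S i α y t v‖ ≤ 2 * N * mz Z (below v : ℕ) := by
  have hN0 : (0 : ℝ) ≤ N := Nat.cast_nonneg N
  unfold sm
  have h1 : ‖Complex.exp (-(y : ℂ) * Real.log (nm v))‖ ≤ 1 := by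
    rw [Complex.norm_exp, ← Complex.ofReal_neg, ← Complex.ofReal_mul, Complex.ofReal_re,
      Real.exp_le_one_iff]
    have := Real.log_natCast_nonneg (nm v)
    nlinarith
  have h2 := norm_gv_le hN0 (norm_tv hα) t hZ hv
  have h3 : ‖qv S α v (se i t + y)‖ ≤ N * mz Z (below v : ℕ) := by
    refine (norm_qv hα v ?_).trans (mul_le_mul_of_nonneg_left (inv_nm_sq_le hZ hv) hN0)
    rw [Complex.add_re, se_re, Complex.ofReal_re]
    linarith
  refine (norm_add_le _ _).trans ?_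
  rw [norm_mul]
  have h4 : ‖Complex.exp (-(y : ℂ) * Real.log (nm v))‖ * ‖gv (tv S i α) t v‖ ≤
      1 * (N * mz Z (below v : ℕ)) :=
    mul_le_mul h1 h2 (norm_nonneg _) zero_le_one
  linarith

lemma norm_sum_sm (hα : Wt S i α) {y : ℝ} (hy : 0 ≤ y) (t : ℝ) {Z : ℕ} (hZ : 1 ≤ Z) (X : ℕ) :
    ‖∑ v ∈ FZ K Z X, sm S i α y t v‖ ≤ 6 * (N * Module.finrank ℚ K) / Real.sqrt Z := by
  have hN0 : (0 : ℝ) ≤ N := Nat.cast_nonneg N
  calc ‖∑ v ∈ FZ K Z X, sm S i α y t v‖ ≤ ∑ v ∈ FZ K Z X, 2 * N * mz Z (below v : ℕ) :=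
        norm_sum_le_of_le _ fun v hv => norm_sm hα hy t hZ (mem_FZ.1 hv).2
    _ = 2 * N * ∑ v ∈ FZ K Z X, mz Z (below v : ℕ) := (Finset.mul_sum _ _ _).symm
    _ ≤ 2 * N * (Module.finrank ℚ K * (3 / Real.sqrt Z)) :=
        mul_le_mul_of_nonneg_left (sum_mz_places hZ _) (by positivity)
    _ = _ := by ring

/-- The sum over the places as a sum over the primes and small terms. -/
lemma sum_lv (hα : Wt S i α) (y t : ℝ) (Z X : ℕ) :
    ∑ v ∈ FZ K Z X, lv S α v (se i t + y) =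
      ∑ p ∈ (Finset.Ico Z X).filter Nat.Prime, bp S i α y t p +
        ∑ v ∈ FZ K Z X, sm S i α y t v := by
  classical
  set f : HeightOneSpectrum (𝓞 K) → ℂ := fun v =>
    if Z ≤ nm v ∧ (nm v).Prime then
      Complex.exp (-(y : ℂ) * Real.log (nm v)) * vt nm (tv S i α) t v else 0 with hf
  have h1 : ∑ p ∈ (Finset.Ico Z X).filter Nat.Prime, bp S i α y t p =
      ∑ v ∈ FV nm hfin X, f v := by
    rw [← sum_grp hfin]
    have h2 : (Finset.Ico Z X).filter Nat.Prime =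
        (Finset.range X).filter fun p => Z ≤ p ∧ p.Prime := by
      ext p
      simp only [Finset.mem_filter, Finset.mem_Ico, Finset.mem_range]
      tauto
    rw [h2, Finset.sum_filter]
    refine Finset.sum_congr rfl fun p _ => ?_
    by_cases hp : Z ≤ p ∧ p.Prime
    · rw [if_pos hp]
      unfold bp cp grp
      rw [if_pos hp.2, ← tsum_div_const, ← tsum_mul_right]
      refine tsum_congr fun v => ?_
      have h3 : nm v.1 = p := v.2
      rw [hf]
      simp only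
      rw [if_pos (by rw [h3]; exact hp), vt, h3]
      have h4 : Complex.exp (-((y : ℂ) + t * Complex.I) * Real.log p) =
          Complex.exp (-(y : ℂ) * Real.log p) *
            Complex.exp (-((t : ℂ) * (Real.log p : ℂ)) * Complex.I) := by
        rw [← Complex.exp_add]
        congr 1
        ring
      rw [h4]
      ring
    · rw [if_neg hp]
      unfold grp
      have : ∀ v : (nm : HeightOneSpectrum (𝓞 K) → ℕ) ⁻¹' {p}, f v.1 = 0 := by
        intro v
        have h3 : nm v.1 = p := v.2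
        rw [hf]
        simp only
        rw [if_neg (by rw [h3]; exact hp)]
      simp [this]
  have h2 : ∑ v ∈ FV nm hfin X, f v = ∑ v ∈ FZ K Z X, f v := by
    unfold FZ
    rw [Finset.sum_filter]
    refine Finset.sum_congr rfl fun v _ => ?_
    by_cases hv : Z ≤ nm v
    · rw [if_pos hv]
    · rw [if_neg hv, hf]
      simp only
      rw [if_neg fun h => hv h.1]
  rw [h1, h2, ← Finset.sum_add_distrib]
  refine Finset.sum_congr rfl fun v hv => ?_
  have hZ := (mem_FZ.1 hv).2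
  rw [lv_eq hα]
  unfold sm gv
  rw [hf]
  simp only
  by_cases hp : (nm v).Prime
  · rw [if_pos ⟨hZ, hp⟩, if_pos hp]
    ring
  · rw [if_neg fun h => hp h.2, if_neg hp]
    ring

/-- The sum over the large places. -/
lemma logL_sub (hα : Wt S i α) {y : ℝ} (hy : 0 < y) (t : ℝ) (Z : ℕ) :
    Tendsto (fun X => ∑ v ∈ FZ K Z X, lv S α v (se i t + y)) atTop
      (𝓝 (logL S α (se i t + y) - ∑ v ∈ FV nm hfin Z, lv S α v (se i t + y))) := by
  classical
  have h1 := (summable_lv hα (s := se i t + y) (by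
    rw [Complex.add_re, se_re, Complex.ofReal_re]
    linarith)).hasSum.comp (tendsto_FV hfin)
  refine (h1.sub_const (∑ v ∈ FV nm hfin Z, lv S α v (se i t + y))).congr' ?_
  filter_upwards [eventually_ge_atTop Z] with X hX
  simp only [Function.comp_apply]
  have h2 : FV nm hfin X = FV nm hfin Z ∪ FZ K Z X := by
    ext v
    rw [Finset.mem_union, mem_FV, mem_FV, mem_FZ]
    omega
  have h3 : Disjoint (FV (nm : HeightOneSpectrum (𝓞 K) → ℕ) hfin Z) (FZ K Z X) := by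
    rw [Finset.disjoint_left]
    intro v h4 h5
    rw [mem_FV] at h4
    rw [mem_FZ] at h5
    omega
  rw [h2, Finset.sum_union h3]
  ring

end main

end Run7.h522.QA
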