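import Pool.Agent.H970R2.X.Btl

/-!
# Mean squares over the Dirichlet characters of sums over primes
-/

set_option autoImplicit false

namespace Run7.h522.QA

open Finset
open scoped ComplexConjugate

section ortho

variable {q : ℕ} [NeZero q]

lemma conj_char (χ : DirichletCharacter ℂ q) {a : ZMod q} (ha : IsUnit a) :
    conj (χ a) = χ a⁻¹ := by
  obtain ⟨u, rfl⟩ := ha
  have h1 : ‖χ (u : ZMod q)‖ = 1 := χ.unit_norm_eq_one u
  have h2 : conj (χ (u : ZMod q)) * χ (u : ZMod q) = 1 := by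
    rw [mul_comm, Complex.mul_conj, Complex.normSq_eq_norm_sq, h1]
    norm_num
  have h3 : χ (u : ZMod q)⁻¹ * χ (u : ZMod q) = 1 := by
    rw [← map_mul, ZMod.inv_mul_of_unit _ u.isUnit, map_one]
  have h4 : χ (u : ZMod q) ≠ 0 := by
    intro h0
    rw [h0, norm_zero] at h1
    exact zero_ne_one h1
  exact mul_right_cancel₀ h4 (h2.trans h3.symm)

lemma char_corr (m n : ℕ) :
    ∑ χ : DirichletCharacter ℂ q, χ (m : ZMod q) * conj (χ (n : ZMod q)) =
      if (n : ZMod q) = m ∧ IsUnit (n : ZMod q) then ((Nat.totient q : ℕ) : ℂ) else 0 := by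
  by_cases hn : IsUnit (n : ZMod q)
  · have h1 := DirichletCharacter.sum_char_inv_mul_char_eq ℂ hn (m : ZMod q)
    have h2 : ∀ χ : DirichletCharacter ℂ q, χ (m : ZMod q) * conj (χ (n : ZMod q)) =
        χ (n : ZMod q)⁻¹ * χ (m : ZMod q) := by
      intro χ
      rw [conj_char χ hn, mul_comm]
    simp_rw [h2, h1, hn, and_true]
  · have h2 : ∀ χ : DirichletCharacter ℂ q, χ (m : ZMod q) * conj (χ (n : ZMod q)) = 0 := by
      intro χ
      rw [χ.map_nonunit hn, map_zero, mul_zero]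
    simp_rw [h2, hn, and_false, if_false]
    simp

/-- The mean square of a sum over the characters. -/
lemma char_sq (B : Finset ℕ) (b : ℕ → ℂ) :
    ∑ χ : DirichletCharacter ℂ q, ‖∑ p ∈ B, b p * χ (p : ZMod q)‖ ^ 2 ≤
      Nat.totient q * ∑ p ∈ B, ∑ p' ∈ B.filter (fun p' => p' % q = p % q), ‖b p‖ * ‖b p'‖ := by
  have h1 : ((∑ χ : DirichletCharacter ℂ q, ‖∑ p ∈ B, b p * χ (p : ZMod q)‖ ^ 2 : ℝ) : ℂ) =
      ∑ p ∈ B, ∑ p' ∈ B, b p * conj (b p') *
        ∑ χ : DirichletCharacter ℂ q, χ (p : ZMod q) * conj (χ (p' : ZMod q)) := by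
    push_cast
    have h2 : ∀ χ : DirichletCharacter ℂ q,
        ((‖∑ p ∈ B, b p * χ (p : ZMod q)‖ : ℝ) : ℂ) ^ 2 =
        ∑ p ∈ B, ∑ p' ∈ B, b p * conj (b p') *
          (χ (p : ZMod q) * conj (χ (p' : ZMod q))) := by
      intro χ
      rw [← Complex.mul_conj', map_sum, sum_mul_sum]
      refine sum_congr rfl fun p _ => sum_congr rfl fun p' _ => ?_
      rw [map_mul]
      ring
    simp_rw [h2]
    rw [sum_comm]
    refine sum_congr rfl fun p _ => ?_
    rw [sum_comm]
    refine sum_congr rfl fun p' _ => ?_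
    rw [mul_sum]
  have h2 : ‖((∑ χ : DirichletCharacter ℂ q, ‖∑ p ∈ B, b p * χ (p : ZMod q)‖ ^ 2 : ℝ) : ℂ)‖ =
      ∑ χ : DirichletCharacter ℂ q, ‖∑ p ∈ B, b p * χ (p : ZMod q)‖ ^ 2 := by
    rw [Complex.norm_real, Real.norm_of_nonneg (sum_nonneg fun χ _ => by positivity)]
  rw [← h2, h1, mul_sum]
  refine (norm_sum_le _ _).trans (sum_le_sum fun p _ => ?_)
  refine (norm_sum_le _ _).trans ?_
  rw [mul_sum, sum_filter]
  refine sum_le_sum fun p' _ => ?_
  rw [char_corr, norm_mul, norm_mul, Complex.norm_conj]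
  by_cases h : (p' : ZMod q) = p ∧ IsUnit (p' : ZMod q)
  · have h3 : p' % q = p % q := (ZMod.natCast_eq_natCast_iff' _ _ _).1 h.1
    rw [if_pos h, if_pos h3, Complex.norm_natCast]
    exact le_of_eq (by ring)
  · rw [if_neg h, norm_zero, mul_zero]
    split_ifs <;> positivity

end ortho

section block

lemma log2_ge : (0.69 : ℝ) ≤ Real.log 2 := by
  have := Real.log_two_gt_d9
  linarith

lemma two_pow_half (k : ℕ) : (2 : ℝ) ^ (((k : ℝ) + 1) / 2) ≤ 2 ^ k + 1 := by
  rcases Nat.eq_zero_or_pos k with rfl | hk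
  · have h1 : (2 : ℝ) ^ (((0 : ℕ) : ℝ) + 1) = 2 := by norm_num
    have h2 : (2 : ℝ) ^ ((((0 : ℕ) : ℝ) + 1) / 2) ≤ 2 ^ (((0 : ℕ) : ℝ) + 1) := by
      refine Real.rpow_le_rpow_of_exponent_le (by norm_num) ?_
      norm_num
    rw [h1] at h2
    norm_num at h2 ⊢
    exact h2
  · have hk1 : (1 : ℝ) ≤ k := by exact_mod_cast hk
    have h1 : (2 : ℝ) ^ (((k : ℝ) + 1) / 2) ≤ 2 ^ (k : ℝ) := by
      refine Real.rpow_le_rpow_of_exponent_le (by norm_num) ?_
      linarith
    rw [Real.rpow_natCast] at h1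
    linarith

/-- The mean square of a sum over a dyadic block of primes. -/
lemma block_sq (q : ℕ) [NeZero q] {j : ℕ} (hj : 1 ≤ j) (hJ : Nat.log 2 q ≤ j) (B : Finset ℕ)
    (hB : ∀ p ∈ B, p.Prime ∧ 2 ^ j ≤ p ∧ p < 2 ^ (j + 1)) (b : ℕ → ℂ) {D r : ℝ} (hD : 0 ≤ D)
    (hr : 0 ≤ r) (hb : ∀ p ∈ B, ‖b p‖ ≤ D * r / 2 ^ j) :
    ∑ χ : DirichletCharacter ℂ q, ‖∑ p ∈ B, b p * χ (p : ZMod q)‖ ^ 2 ≤
      (150 * D * r) ^ 2 / (j * ((j - Nat.log 2 q : ℕ) + 1)) := by
  have hl2 := log2_ge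
  have hq : 1 ≤ q := Nat.one_le_iff_ne_zero.2 (NeZero.ne q)
  set k : ℕ := j - Nat.log 2 q with hk
  have hjk : j = Nat.log 2 q + k := by omega
  have hphi : (0 : ℝ) < (Nat.totient q : ℝ) := by exact_mod_cast Nat.totient_pos.2 hq
  have hj0 : (1 : ℝ) ≤ j := by exact_mod_cast hj
  have h2j : (2 : ℝ) ≤ 2 ^ j := by
    calc (2 : ℝ) = 2 ^ 1 := by norm_num
      _ ≤ 2 ^ j := pow_le_pow_right₀ (by norm_num) hj
  -- the number of the primes
  have hcard : (B.card : ℝ) ≤ 44 * 2 ^ j / (j * Real.log 2) := by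
    have h1 := Pool.Agent.H970R2.X.xbtl_card 1 0 j B le_rfl fun p hp =>
      ⟨(hB p hp).1, by rw [Nat.mod_one, Nat.mod_one], (hB p hp).2.1, (hB p hp).2.2⟩
    refine h1.trans ?_
    rw [Nat.div_one, Nat.totient_one]
    push_cast
    rw [div_self one_ne_zero, mul_one]
    have h2 : (j : ℝ) * Real.log 2 ≤ Real.log (2 ^ j + 2) := by
      rw [← Real.log_pow]
      exact Real.log_le_log (by positivity) (by linarith)
    have h3 : 0 < (j : ℝ) * Real.log 2 := by positivity
    rw [div_le_div_iff₀ (by linarith) h3]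
    calc 22 * ((2 : ℝ) ^ j + 2) * (j * Real.log 2) ≤ 44 * 2 ^ j * (j * Real.log 2) := by
          refine mul_le_mul_of_nonneg_right ?_ h3.le
          linarith
      _ ≤ 44 * 2 ^ j * Real.log (2 ^ j + 2) := by gcongr
  -- the number of the primes in a residue class
  have hmax : ∀ p ∈ B, (((B.filter fun p' => p' % q = p % q).card : ℕ) : ℝ) ≤
      220 * 2 ^ j / (Nat.totient q * (((k : ℝ) + 1) * Real.log 2)) := by
    intro p _
    have h1 := Pool.Agent.H970R2.X.xbtl_card q p j (B.filter fun p' => p' % q = p % q) hq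
      fun p' hp' => by
        rw [mem_filter] at hp'
        exact ⟨(hB p' hp'.1).1, hp'.2, (hB p' hp'.1).2.1, (hB p' hp'.1).2.2⟩
    refine h1.trans ?_
    set n : ℕ := 2 ^ j / q + 2 with hn
    have hq2 : q < 2 ^ (Nat.log 2 q + 1) := Nat.lt_pow_succ_log_self (by norm_num) q
    have hq3 : (q : ℝ) < 2 * 2 ^ j := by
      have h4 : q < 2 ^ (j + 1) := hq2.trans_le (Nat.pow_le_pow_right (by norm_num) (by omega))
      have h5 : (q : ℝ) < 2 ^ (j + 1) := by exact_mod_cast h4
      rw [pow_succ] at h5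
      linarith
    have hnq : (q : ℝ) * n ≤ 5 * 2 ^ j := by
      have h4 : q * (2 ^ j / q) ≤ 2 ^ j := Nat.mul_div_le _ _
      have h5 : (q : ℝ) * ((2 ^ j / q : ℕ) : ℝ) ≤ 2 ^ j := by exact_mod_cast h4
      rw [hn]
      push_cast at h5 ⊢
      rw [mul_add]
      linarith
    have hlog : ((k : ℝ) + 1) / 2 * Real.log 2 ≤ Real.log n := by
      rw [← Real.log_rpow (by norm_num)]
      refine Real.log_le_log (by positivity) ?_
      rcases Nat.eq_zero_or_pos k with h0 | h0
      · have h4 := two_pow_half k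
        rw [h0] at h4 ⊢
        refine h4.trans ?_
        rw [hn]
        push_cast
        have : (0 : ℝ) ≤ ((2 ^ j / q : ℕ) : ℝ) := Nat.cast_nonneg _
        push_cast at this
        have h5 : (2 : ℝ) ^ 0 + 1 = 2 := by norm_num
        rw [h5]
        linarith
      · have h4 : 2 ^ (k - 1) ≤ 2 ^ j / q := by
          rw [Nat.le_div_iff_mul_le (by omega)]
          calc 2 ^ (k - 1) * q ≤ 2 ^ (k - 1) * 2 ^ (Nat.log 2 q + 1) :=
                Nat.mul_le_mul_left _ hq2.le
            _ = 2 ^ (k - 1 + (Nat.log 2 q + 1)) := (pow_add _ _ _).symm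
            _ = 2 ^ j := by congr 1; omega
        have h5 : (2 : ℝ) ^ (k - 1) ≤ ((2 ^ j / q : ℕ) : ℝ) := by exact_mod_cast h4
        have h6 := two_pow_half (k - 1)
        have hk1 : ((k - 1 : ℕ) : ℝ) = (k : ℝ) - 1 := by
          rw [Nat.cast_sub h0]
          simp
        have h7 : (2 : ℝ) ^ (((k : ℝ) + 1) / 2) ≤ 2 ^ (k - 1) + 2 := by
          rcases Nat.eq_or_lt_of_le h0 with h8 | h8
          · rw [← h8]
            norm_num
          · -- `k ≥ 2`
            rcases Nat.eq_or_lt_of_le h8 with h9 | h9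
            · rw [← h9]
              have h10 : (2 : ℝ) ^ ((((1 : ℕ).succ : ℝ) + 1) / 2) ≤ 2 ^ (2 : ℝ) :=
                Real.rpow_le_rpow_of_exponent_le (by norm_num) (by norm_num)
              refine h10.trans ?_
              norm_num
            · have h10 : (2 : ℝ) ^ (((k : ℝ) + 1) / 2) ≤ 2 ^ ((k - 1 : ℕ) : ℝ) := by
                refine Real.rpow_le_rpow_of_exponent_le (by norm_num) ?_
                rw [hk1]
                have : (3 : ℝ) ≤ k := by exact_mod_cast h9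
                linarith
              rw [Real.rpow_natCast] at h10
              linarith
        refine h7.trans ?_
        rw [hn]
        push_cast at h5 ⊢
        linarith
    have hpos : 0 < ((k : ℝ) + 1) / 2 * Real.log 2 := by positivity
    have hlogn : 0 < Real.log n := by linarith
    calc 22 * ((q : ℝ) / Nat.totient q) * (n : ℝ) / Real.log n
        = 22 * (q * n) / (Nat.totient q * Real.log n) := by field_simp
      _ ≤ 22 * (5 * 2 ^ j) / (Nat.totient q * (((k : ℝ) + 1) / 2 * Real.log 2)) := by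
          gcongr
      _ = _ := by field_simp; ring
  refine (char_sq B b).trans ?_
  have hb2 : 0 ≤ D * r / 2 ^ j := by positivity
  calc (Nat.totient q : ℝ) * ∑ p ∈ B, ∑ p' ∈ B.filter (fun p' => p' % q = p % q), ‖b p‖ * ‖b p'‖
      ≤ Nat.totient q * ∑ p ∈ B, ∑ p' ∈ B.filter (fun p' => p' % q = p % q),
          (D * r / 2 ^ j) * (D * r / 2 ^ j) := by
        refine mul_le_mul_of_nonneg_left (sum_le_sum fun p hp => sum_le_sum fun p' hp' => ?_)
          hphi.le
        exact mul_le_mul (hb p hp) (hb p' (mem_filter.1 hp').1) (norm_nonneg _) hb2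
    _ = Nat.totient q * ∑ p ∈ B, ((B.filter fun p' => p' % q = p % q).card : ℝ) *
          (D * r / 2 ^ j) ^ 2 := by
        congr 1
        refine sum_congr rfl fun p _ => ?_
        rw [sum_const, nsmul_eq_mul, sq]
    _ ≤ Nat.totient q * ∑ p ∈ B, 220 * 2 ^ j / (Nat.totient q * (((k : ℝ) + 1) * Real.log 2)) *
          (D * r / 2 ^ j) ^ 2 := by
        refine mul_le_mul_of_nonneg_left (sum_le_sum fun p hp => ?_) hphi.le
        exact mul_le_mul_of_nonneg_right (hmax p hp) (sq_nonneg _)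
    _ = B.card * (220 * 2 ^ j / ((((k : ℝ) + 1) * Real.log 2)) * (D * r / 2 ^ j) ^ 2) := by
        rw [sum_const, nsmul_eq_mul]
        have h9 : 220 * 2 ^ j / ((Nat.totient q : ℝ) * (((k : ℝ) + 1) * Real.log 2)) =
            (Nat.totient q : ℝ)⁻¹ * (220 * 2 ^ j / (((k : ℝ) + 1) * Real.log 2)) := by
          rw [mul_comm (Nat.totient q : ℝ), ← div_div, div_eq_mul_inv, mul_comm]
        rw [h9]
        calc (Nat.totient q : ℝ) * ((B.card : ℝ) * ((Nat.totient q : ℝ)⁻¹ *
              (220 * 2 ^ j / (((k : ℝ) + 1) * Real.log 2)) * (D * r / 2 ^ j) ^ 2))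
            = ((Nat.totient q : ℝ) * (Nat.totient q : ℝ)⁻¹) * (B.card *
              (220 * 2 ^ j / (((k : ℝ) + 1) * Real.log 2) * (D * r / 2 ^ j) ^ 2)) := by ring
          _ = _ := by rw [mul_inv_cancel₀ hphi.ne', one_mul]
    _ ≤ 44 * 2 ^ j / (j * Real.log 2) *
          (220 * 2 ^ j / ((((k : ℝ) + 1) * Real.log 2)) * (D * r / 2 ^ j) ^ 2) := by
        refine mul_le_mul_of_nonneg_right hcard (by positivity)
    _ = 9680 / (Real.log 2) ^ 2 * (D * r) ^ 2 / (j * (k + 1)) := by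
        field_simp
        ring
    _ ≤ (150 * D * r) ^ 2 / (j * (k + 1)) := by
        refine div_le_div_of_nonneg_right ?_ (by positivity)
        have h1 : 9680 / (Real.log 2) ^ 2 ≤ 22500 := by
          rw [div_le_iff₀ (by positivity)]
          nlinarith
        calc 9680 / (Real.log 2) ^ 2 * (D * r) ^ 2 ≤ 22500 * (D * r) ^ 2 :=
              mul_le_mul_of_nonneg_right h1 (sq_nonneg _)
          _ = _ := by ring

end block

end Run7.h522.QA
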